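import Pool.Agent.Y157.PC.Stm
import Pool.Agent.Y536.PS.CONJ

/-!
# Project PC: values of a finite extension of `ℚ(x)` above a rational point lie in a number field
-/

set_option autoImplicit false
set_option linter.all false

open Polynomial

namespace Pool.Agent.Y115.PC

open Pool.Agent.Y157.PS Pool.Agent.Y157.PC

section

variable {R Ω : Type} [Field R] [Field Ω] [Algebra ℚ R] [Algebra R Ω] [Algebra ℚ Ω]
  [IsScalarTower ℚ R Ω]

theorem v_rat_le {x : R} {e : ℚ} {W : ValuationSubring Ω} (hW : At x e W) (c : ℚ) :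
    W.valuation (algebraMap ℚ Ω c) ≤ 1 := (W.valuation_le_one_iff _).2 (hW.1 c)

theorem v_rat {x : R} {e : ℚ} {W : ValuationSubring Ω} (hW : At x e W) {c : ℚ} (hc : c ≠ 0) :
    W.valuation (algebraMap ℚ Ω c) = 1 := by
  refine le_antisymm (v_rat_le hW c) ?_
  by_contra h
  have h1 := lt_of_not_ge h
  have h2 := v_rat_le hW c⁻¹
  have h3 : W.valuation (algebraMap ℚ Ω c) * W.valuation (algebraMap ℚ Ω c⁻¹) = 1 := by
    rw [← map_mul, ← map_mul, mul_inv_cancel₀ hc, map_one, map_one]
  have h4 : W.valuation (algebraMap ℚ Ω c) * W.valuation (algebraMap ℚ Ω c⁻¹) < 1 :=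
    mul_lt_one_of_lt_of_le h1 h2
  rw [h3] at h4
  exact lt_irrefl _ h4

theorem v_t {x : R} {e : ℚ} {W : ValuationSubring Ω} (hW : At x e W) :
    W.valuation (algebraMap R Ω x - algebraMap ℚ Ω e) < 1 :=
  (W.mem_nonunits_iff).1 hW.2

theorem v_x {x : R} {e : ℚ} {W : ValuationSubring Ω} (hW : At x e W) :
    W.valuation (algebraMap R Ω x) ≤ 1 := by
  have h : algebraMap R Ω x = (algebraMap R Ω x - algebraMap ℚ Ω e) + algebraMap ℚ Ω e := by ring
  rw [h]
  exact W.valuation.map_add_le (v_t hW).le (v_rat_le hW e)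

theorem v_aeval {x : R} {e : ℚ} {W : ValuationSubring Ω} (hW : At x e W) (h : ℚ[X]) :
    W.valuation (aeval (algebraMap R Ω x) h) ≤ 1 := by
  rw [aeval_eq_sum_range]
  refine W.valuation.map_sum_le fun i _ => ?_
  rw [Algebra.smul_def, map_mul, map_pow]
  exact mul_le_one' (v_rat_le hW _) (pow_le_one' (v_x hW) _)

/-- A quotient of elements with the rational values `p` and `q`. -/
theorem v_quot {x : R} {e : ℚ} {W : ValuationSubring Ω} (hW : At x e W) {u w : Ω} {p q : ℚ}
    (hq : q ≠ 0) (hu : W.valuation (u - algebraMap ℚ Ω p) < 1)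
    (hw : W.valuation (w - algebraMap ℚ Ω q) < 1) :
    W.valuation (u / w - algebraMap ℚ Ω (p / q)) < 1 := by
  have hq' : algebraMap ℚ Ω q ≠ 0 := by
    rw [_root_.map_ne_zero]; exact hq
  have hvw : W.valuation w = 1 := by
    have e1 : w = algebraMap ℚ Ω q + (w - algebraMap ℚ Ω q) := by ring
    rw [e1, W.valuation.map_add_eq_of_lt_left (by rw [v_rat hW hq]; exact hw), v_rat hW hq]
  have hw0 : w ≠ 0 := by
    intro h
    rw [h, map_zero] at hvw
    exact zero_ne_one hvw
  have e2 : u / w - algebraMap ℚ Ω (p / q) =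
      ((u - algebraMap ℚ Ω p) * algebraMap ℚ Ω q - (w - algebraMap ℚ Ω q) * algebraMap ℚ Ω p) /
        (w * algebraMap ℚ Ω q) := by
    rw [map_div₀]
    field_simp
    ring
  rw [e2, map_div₀, map_mul, hvw, v_rat hW hq, one_mul, div_one]
  refine W.valuation.map_sub_lt ?_ ?_
  · rw [map_mul, v_rat hW hq, mul_one]
    exact hu
  · rw [map_mul]
    exact mul_lt_one_of_lt_of_le hw (v_rat_le hW p)

theorem t_ne {x : R} (hx : Transcendental ℚ x) (e : ℚ) :
    algebraMap R Ω x - algebraMap ℚ Ω e ≠ 0 := by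
  intro h
  have h1 : algebraMap R Ω x = algebraMap R Ω (algebraMap ℚ R e) := by
    rw [← IsScalarTower.algebraMap_apply]
    exact sub_eq_zero.1 h
  have h2 : x = algebraMap ℚ R e := (algebraMap R Ω).injective h1
  apply hx
  rw [h2]
  exact isAlgebraic_algebraMap e

/-- The value of a polynomial in `x`. -/
theorem poly_value {x : R} (hx : Transcendental ℚ x) (e : ℚ) (g : ℚ[X]) (hg : g ≠ 0) :
    ∃ (m : ℕ) (q : ℚ), q ≠ 0 ∧ ∀ W : ValuationSubring Ω, At x e W →
      W.valuation (aeval (algebraMap R Ω x) g / (algebraMap R Ω x - algebraMap ℚ Ω e) ^ m -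
        algebraMap ℚ Ω q) < 1 := by
  obtain ⟨g1, hg1, hnd⟩ := exists_eq_pow_rootMultiplicity_mul_and_not_dvd g hg e
  obtain ⟨h, hh⟩ := X_sub_C_dvd_sub_C_eval (a := e) (p := g1)
  refine ⟨rootMultiplicity e g, g1.eval e, ?_, ?_⟩
  · intro h0
    exact hnd (dvd_iff_isRoot.2 h0)
  · intro W hW
    have ht := t_ne (Ω := Ω) hx e
    set t : Ω := algebraMap R Ω x - algebraMap ℚ Ω e with htdef
    have e1 : aeval (algebraMap R Ω x) g = t ^ rootMultiplicity e g *
        aeval (algebraMap R Ω x) g1 := by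
      conv_lhs => rw [hg1]
      rw [map_mul, map_pow, map_sub, aeval_X, aeval_C]
    have e2 : aeval (algebraMap R Ω x) g1 - algebraMap ℚ Ω (g1.eval e) =
        t * aeval (algebraMap R Ω x) h := by
      have := congrArg (aeval (algebraMap R Ω x)) hh
      rw [map_sub, aeval_C, map_mul, map_sub, aeval_X, aeval_C] at this
      exact this
    rw [e1, mul_div_cancel_left₀ _ (pow_ne_zero _ ht), e2, map_mul]
    exact mul_lt_one_of_lt_of_le (v_t hW) (v_aeval hW h)

/-- The value of an element of `R = ℚ(x)`. -/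
theorem value_R {x : R} (hx : Transcendental ℚ x) (hgen : IntermediateField.adjoin ℚ {x} = ⊤)
    (e : ℚ) (r : R) (hr : r ≠ 0) :
    ∃ (a b : ℕ) (q : ℚ), q ≠ 0 ∧ ∀ W : ValuationSubring Ω, At x e W →
      W.valuation (algebraMap R Ω r * (algebraMap R Ω x - algebraMap ℚ Ω e) ^ b /
        (algebraMap R Ω x - algebraMap ℚ Ω e) ^ a - algebraMap ℚ Ω q) < 1 := by
  have hrm : r ∈ IntermediateField.adjoin ℚ {x} := by rw [hgen]; trivial
  obtain ⟨P, Q, hPQ⟩ := (IntermediateField.mem_adjoin_simple_iff ℚ r).1 hrm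
  have hP : P ≠ 0 := by
    rintro rfl
    rw [map_zero, zero_div] at hPQ
    exact hr hPQ
  have hQ : Q ≠ 0 := by
    rintro rfl
    rw [map_zero, div_zero] at hPQ
    exact hr hPQ
  obtain ⟨a, p, hp, ha⟩ := poly_value (Ω := Ω) hx e P hP
  obtain ⟨b, q, hq, hb⟩ := poly_value (Ω := Ω) hx e Q hQ
  refine ⟨a, b, p / q, div_ne_zero hp hq, ?_⟩
  intro W hW
  have ht := t_ne (Ω := Ω) hx e
  have h1 := v_quot hW hq (ha W hW) (hb W hW)
  have hQ0 : aeval (algebraMap R Ω x) Q ≠ 0 := by
    intro h0
    have h2 : algebraMap R Ω (aeval x Q) = 0 := by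
      rw [← aeval_algebraMap_apply]; exact h0
    rw [map_eq_zero] at h2
    rw [h2, div_zero] at hPQ
    exact hr hPQ
  have h2 : algebraMap R Ω r = aeval (algebraMap R Ω x) P / aeval (algebraMap R Ω x) Q := by
    rw [hPQ, map_div₀, ← aeval_algebraMap_apply, ← aeval_algebraMap_apply]
  have h3 : algebraMap R Ω r * (algebraMap R Ω x - algebraMap ℚ Ω e) ^ b /
        (algebraMap R Ω x - algebraMap ℚ Ω e) ^ a =
      aeval (algebraMap R Ω x) P / (algebraMap R Ω x - algebraMap ℚ Ω e) ^ a /
        (aeval (algebraMap R Ω x) Q / (algebraMap R Ω x - algebraMap ℚ Ω e) ^ b) := by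
    rw [h2]
    field_simp
  rw [h3]
  exact h1

theorem v_one_of {x : R} {e : ℚ} {W : ValuationSubring Ω} (hW : At x e W) {w : Ω} {q : ℚ}
    (hq : q ≠ 0) (hw : W.valuation (w - algebraMap ℚ Ω q) < 1) : W.valuation w = 1 := by
  have e1 : w = algebraMap ℚ Ω q + (w - algebraMap ℚ Ω q) := by ring
  rw [e1, W.valuation.map_add_eq_of_lt_left (by rw [v_rat hW hq]; exact hw), v_rat hW hq]

theorem mem_iff_le {x : R} (hx : Transcendental ℚ x) {e : ℚ} {W : ValuationSubring Ω}
    (hW : At x e W) {r : Ω} {a b : ℕ} {q : ℚ} (hq : q ≠ 0)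
    (h : W.valuation (r * (algebraMap R Ω x - algebraMap ℚ Ω e) ^ b /
        (algebraMap R Ω x - algebraMap ℚ Ω e) ^ a - algebraMap ℚ Ω q) < 1) :
    r ∈ W ↔ b ≤ a := by
  have ht := t_ne (Ω := Ω) hx e
  have hv := v_t hW
  set t : Ω := algebraMap R Ω x - algebraMap ℚ Ω e with htdef
  have h1 := v_one_of hW hq h
  have ht0 : 0 < W.valuation t := (zero_lt_iff).2 ((Valuation.ne_zero_iff _).2 ht)
  have h2 : W.valuation r * W.valuation t ^ b = W.valuation t ^ a := by
    rw [map_div₀, map_mul, map_pow, map_pow] at h1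
    have h3 : W.valuation t ^ a ≠ 0 := pow_ne_zero _ ht0.ne'
    exact (div_eq_one_iff_eq h3).1 h1
  rw [← W.valuation_le_one_iff]
  constructor
  · intro hr
    by_contra hc
    have hab : a < b := not_le.1 hc
    have h4 : W.valuation t ^ b < W.valuation t ^ a := pow_lt_pow_right_of_lt_one₀ ht0 hv hab
    have h5 : W.valuation r * W.valuation t ^ b ≤ W.valuation t ^ b := mul_le_of_le_one_left' hr
    rw [h2] at h5
    exact absurd h4 (not_lt.2 h5)
  · intro hab
    have h4 : W.valuation t ^ a ≤ W.valuation t ^ b := pow_le_pow_right_of_le_one' hv.le hab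
    rw [← h2] at h4
    by_contra hc
    have hc' : 1 < W.valuation r := not_le.1 hc
    have h5 : W.valuation t ^ b < W.valuation r * W.valuation t ^ b := by
      have := mul_lt_mul_of_pos_right hc' (pow_pos ht0 b)
      rwa [one_mul] at this
    exact absurd h5 (not_lt.2 h4)

/-- Elements of `R` in `W` have rational values. -/
theorem exists_rat {x : R} (hx : Transcendental ℚ x)
    (hgen : IntermediateField.adjoin ℚ {x} = ⊤) {e : ℚ} {W : ValuationSubring Ω} (hW : At x e W)
    (r : R) (hr : W.valuation (algebraMap R Ω r) ≤ 1) :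
    ∃ q : ℚ, W.valuation (algebraMap R Ω r - algebraMap ℚ Ω q) < 1 := by
  by_cases hr0 : r = 0
  · refine ⟨0, ?_⟩
    rw [hr0, map_zero, map_zero, sub_zero, map_zero]
    exact zero_lt_one
  · obtain ⟨a, b, q, hq, h⟩ := value_R (Ω := Ω) hx hgen e r hr0
    have h1 := h W hW
    have h2 := (mem_iff_le hx hW hq h1).1 ((W.valuation_le_one_iff _).1 hr)
    have ht := t_ne (Ω := Ω) hx e
    rcases h2.lt_or_eq with h3 | h3
    · refine ⟨0, ?_⟩
      rw [map_zero, sub_zero]
      have h4 := v_one_of hW hq h1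
      obtain ⟨k, hk⟩ := Nat.exists_eq_add_of_lt h3
      have h5 : algebraMap R Ω r = algebraMap R Ω r *
          (algebraMap R Ω x - algebraMap ℚ Ω e) ^ b /
            (algebraMap R Ω x - algebraMap ℚ Ω e) ^ a *
            (algebraMap R Ω x - algebraMap ℚ Ω e) ^ (k + 1) := by
        rw [hk]
        field_simp
        ring
      rw [h5, map_mul, h4, one_mul, map_pow]
      exact pow_lt_one' (v_t hW) (Nat.succ_ne_zero k)
    · refine ⟨q, ?_⟩
      rw [h3, mul_div_assoc, div_self (pow_ne_zero _ ht), mul_one] at h1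
      exact h1

/-- All valuation rings above `e` induce the same valuation ring of `R`. -/
theorem comap_eq {x : R} (hx : Transcendental ℚ x)
    (hgen : IntermediateField.adjoin ℚ {x} = ⊤) {e : ℚ} {W W' : ValuationSubring Ω}
    (hW : At x e W) (hW' : At x e W') :
    W.comap (algebraMap R Ω) = W'.comap (algebraMap R Ω) := by
  ext r
  rw [ValuationSubring.mem_comap, ValuationSubring.mem_comap]
  by_cases hr0 : r = 0
  · rw [hr0, map_zero]
    exact ⟨fun _ => zero_mem _, fun _ => zero_mem _⟩
  · obtain ⟨a, b, q, hq, h⟩ := value_R (Ω := Ω) hx hgen e r hr0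
    rw [mem_iff_le hx hW hq (h W hW), mem_iff_le hx hW' hq (h W' hW')]

end

theorem exists_root_lt {Ω : Type} [Field Ω] (W : ValuationSubring Ω) (z : Ω) (s : Multiset Ω)
    (h : W.valuation ((s.map fun a => z - a).prod) < 1) : ∃ a ∈ s, W.valuation (z - a) < 1 := by
  induction s using Multiset.induction with
  | empty =>
    rw [Multiset.map_zero, Multiset.prod_zero, map_one] at h
    exact absurd h (lt_irrefl _)
  | cons a s ih =>
    rw [Multiset.map_cons, Multiset.prod_cons, map_mul] at h
    by_cases h1 : W.valuation (z - a) < 1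
    · exact ⟨a, Multiset.mem_cons_self _ _, h1⟩
    · have h2 : 1 ≤ W.valuation (z - a) := not_lt.1 h1
      have h3 : W.valuation ((s.map fun a => z - a).prod) < 1 := by
        by_contra hc
        have h4 := one_le_mul h2 (not_lt.1 hc)
        exact absurd h (not_lt.2 h4)
      obtain ⟨b, hb, hb'⟩ := ih h3
      exact ⟨b, Multiset.mem_cons_of_mem hb, hb'⟩

section

variable {R Ω : Type} [Field R] [Field Ω] [Algebra ℚ R] [Algebra R Ω] [Algebra ℚ Ω]
  [IsScalarTower ℚ R Ω] [IsAlgClosure R Ω]

/-- Every element of `W` has a value in the algebraic closure of `ℚ`. -/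
theorem exists_alg {x : R} (hx : Transcendental ℚ x)
    (hgen : IntermediateField.adjoin ℚ {x} = ⊤) {e : ℚ} {W : ValuationSubring Ω} (hW : At x e W)
    (z : Ω) (hz : W.valuation z ≤ 1) :
    ∃ c : algebraicClosure ℚ Ω, W.valuation (z - (c : Ω)) < 1 := by
  have : IsAlgClosed Ω := IsAlgClosure.isAlgClosed R
  have halg : IsAlgebraic R z := (IsAlgClosure.isAlgebraic (R := R) (K := Ω)).isAlgebraic z
  obtain ⟨f, hf0, hfz⟩ := halg
  have hsup : f.support.Nonempty := by
    rw [Finset.nonempty_iff_ne_empty]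
    intro h
    exact hf0 (support_eq_empty.1 h)
  obtain ⟨j, hj, hmax⟩ := f.support.exists_max_image
    (fun i => W.valuation (algebraMap R Ω (f.coeff i))) hsup
  have hj0 : f.coeff j ≠ 0 := mem_support_iff.1 hj
  have hvj : W.valuation (algebraMap R Ω (f.coeff j)) ≠ 0 := by
    rw [Valuation.ne_zero_iff, _root_.map_ne_zero]; exact hj0
  have hle : ∀ i, W.valuation (algebraMap R Ω (f.coeff i / f.coeff j)) ≤ 1 := by
    intro i
    rw [map_div₀, map_div₀]
    by_cases hi : i ∈ f.support
    · exact div_le_one_of_le₀ (hmax i hi) zero_le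
    · rw [notMem_support_iff.1 hi, map_zero, map_zero, zero_div]
      exact zero_le
  choose q hq using fun i => exists_rat hx hgen hW (f.coeff i / f.coeff j) (hle i)
  set n := f.natDegree + 1 with hn
  set P : ℚ[X] := ∑ i ∈ Finset.range n, C (q i) * X ^ i with hP
  have hjn : j < n := by
    rw [hn]
    exact Nat.lt_succ_of_le (le_natDegree_of_mem_supp j hj)
  have hqj : q j ≠ 0 := by
    intro h0
    have h1 := hq j
    rw [h0, map_zero, sub_zero, div_self hj0, map_one, map_one] at h1
    exact lt_irrefl _ h1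
  have hcoef : P.coeff j = q j := by
    rw [hP, finsetSum_coeff]
    rw [Finset.sum_eq_single j]
    · simp
    · intro i _ hi
      rw [coeff_C_mul, coeff_X_pow, if_neg hi.symm, mul_zero]
    · intro h
      exact absurd (Finset.mem_range.2 hjn) h
  have hP0 : P ≠ 0 := by
    intro h
    rw [h, coeff_zero] at hcoef
    exact hqj hcoef.symm
  have hPz : W.valuation (aeval z P) < 1 := by
    have h1 : ∑ i ∈ Finset.range n, algebraMap R Ω (f.coeff i / f.coeff j) * z ^ i = 0 := by
      have h2 : aeval z f = ∑ i ∈ Finset.range n, algebraMap R Ω (f.coeff i) * z ^ i := by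
        rw [aeval_eq_sum_range]
        exact Finset.sum_congr rfl fun i _ => Algebra.smul_def _ _
      have h3 : ∑ i ∈ Finset.range n, algebraMap R Ω (f.coeff i / f.coeff j) * z ^ i =
          (∑ i ∈ Finset.range n, algebraMap R Ω (f.coeff i) * z ^ i) /
            algebraMap R Ω (f.coeff j) := by
        rw [Finset.sum_div]
        refine Finset.sum_congr rfl fun i _ => ?_
        rw [map_div₀]
        ring
      rw [h3, ← h2, hfz, zero_div]
    have h4 : aeval z P = ∑ i ∈ Finset.range n,
        -((algebraMap R Ω (f.coeff i / f.coeff j) - algebraMap ℚ Ω (q i)) * z ^ i) := by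
      rw [hP, map_sum]
      have h5 : ∑ i ∈ Finset.range n, aeval z (C (q i) * X ^ i) =
          ∑ i ∈ Finset.range n, aeval z (C (q i) * X ^ i) -
            ∑ i ∈ Finset.range n, algebraMap R Ω (f.coeff i / f.coeff j) * z ^ i := by
        rw [h1, sub_zero]
      rw [h5, ← Finset.sum_sub_distrib]
      refine Finset.sum_congr rfl fun i _ => ?_
      rw [map_mul, aeval_C, map_pow, aeval_X]
      ring
    rw [h4]
    refine W.valuation.map_sum_lt one_ne_zero fun i _ => ?_
    rw [Valuation.map_neg, map_mul, map_pow]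
    exact mul_lt_one_of_lt_of_le (hq i) (pow_le_one' hz i)
  have hsp := IsAlgClosed.splits (P.map (algebraMap ℚ Ω))
  have hpr := hsp.eq_prod_roots
  have hPm : P.map (algebraMap ℚ Ω) ≠ 0 := by
    rw [Polynomial.map_ne_zero_iff (algebraMap ℚ Ω).injective]
    exact hP0
  have hev : aeval z P = (P.map (algebraMap ℚ Ω)).leadingCoeff *
      (((P.map (algebraMap ℚ Ω)).roots.map fun a => z - a).prod) := by
    have h6 : aeval z P = eval z (P.map (algebraMap ℚ Ω)) := by
      rw [eval_map_algebraMap]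
    rw [h6]
    conv_lhs => rw [hpr]
    rw [eval_mul, eval_C, eval_multiset_prod, Multiset.map_map]
    congr 2
    refine Multiset.map_congr rfl fun a _ => ?_
    simp
  have hlc : W.valuation (P.map (algebraMap ℚ Ω)).leadingCoeff = 1 := by
    rw [leadingCoeff_map]
    exact v_rat hW (leadingCoeff_ne_zero.2 hP0)
  rw [hev, map_mul, hlc, one_mul] at hPz
  obtain ⟨a, ha, hav⟩ := exists_root_lt W z _ hPz
  have haa : IsAlgebraic ℚ a := by
    refine ⟨P, hP0, ?_⟩
    have h7 := (mem_roots hPm).1 ha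
    rw [IsRoot, eval_map_algebraMap] at h7
    exact h7
  exact ⟨⟨a, mem_algebraicClosure_iff.2 haa⟩, hav⟩

/-- Algebraic numbers are in `W`. -/
theorem v_alg {x : R} {e : ℚ} {W : ValuationSubring Ω} (hW : At x e W)
    (c : algebraicClosure ℚ Ω) : W.valuation (c : Ω) ≤ 1 := by
  rw [W.valuation_le_one_iff]
  refine Pool.Agent.Y536.PS.integral_mem (A := ℚ) W hW.1 (c : Ω) ?_
  exact (mem_algebraicClosure_iff.1 c.2).isIntegral

theorem v_alg_one {x : R} {e : ℚ} {W : ValuationSubring Ω} (hW : At x e W)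
    (c : algebraicClosure ℚ Ω) (hc : c ≠ 0) : W.valuation (c : Ω) = 1 := by
  refine le_antisymm (v_alg hW c) ?_
  by_contra h
  have h1 := lt_of_not_ge h
  have h2 := v_alg hW c⁻¹
  have hc' : (c : Ω) ≠ 0 := by
    intro h0
    exact hc (Subtype.ext h0)
  have h3 : W.valuation (c : Ω) * W.valuation ((c⁻¹ : algebraicClosure ℚ Ω) : Ω) = 1 := by
    rw [← map_mul]
    have : (c : Ω) * ((c⁻¹ : algebraicClosure ℚ Ω) : Ω) = 1 := by
      rw [IntermediateField.coe_inv, mul_inv_cancel₀ hc']
    rw [this, map_one]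
  have h4 := mul_lt_one_of_lt_of_le h1 h2
  rw [h3] at h4
  exact lt_irrefl _ h4

theorem v_lt_add {W : ValuationSubring Ω} {z c z' c' : Ω} (h : W.valuation (z - c) < 1)
    (h' : W.valuation (z' - c') < 1) : W.valuation ((z + z') - (c + c')) < 1 := by
  have e1 : (z + z') - (c + c') = (z - c) + (z' - c') := by ring
  rw [e1]
  exact W.valuation.map_add_lt h h'

theorem v_lt_mul {W : ValuationSubring Ω} {z c z' c' : Ω} (h : W.valuation (z - c) < 1)
    (h' : W.valuation (z' - c') < 1) (hc : W.valuation c ≤ 1) (hc' : W.valuation c' ≤ 1) :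
    W.valuation ((z * z') - (c * c')) < 1 := by
  have e1 : (z * z') - (c * c') = (z - c) * (z' - c') + (z - c) * c' + c * (z' - c') := by ring
  rw [e1]
  refine W.valuation.map_add_lt (W.valuation.map_add_lt ?_ ?_) ?_
  · rw [map_mul]; exact mul_lt_one_of_lt_of_le h h'.le
  · rw [map_mul]; exact mul_lt_one_of_lt_of_le h hc'
  · rw [map_mul, mul_comm]; exact mul_lt_one_of_lt_of_le h' hc

/-- The field of the values of the elements of `L`. -/
def EW (x : R) (e : ℚ) (W : ValuationSubring Ω) (hW : At x e W) (L : IntermediateField R Ω) :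
    IntermediateField ℚ (algebraicClosure ℚ Ω) where
  carrier := {c | ∃ z ∈ L, W.valuation (z - (c : Ω)) < 1}
  mul_mem' := by
    rintro c c' ⟨z, hz, h⟩ ⟨z', hz', h'⟩
    exact ⟨z * z', mul_mem hz hz', v_lt_mul h h' (v_alg hW c) (v_alg hW c')⟩
  add_mem' := by
    rintro c c' ⟨z, hz, h⟩ ⟨z', hz', h'⟩
    exact ⟨z + z', add_mem hz hz', v_lt_add h h'⟩
  algebraMap_mem' := by
    intro q
    refine ⟨algebraMap ℚ Ω q, ?_, ?_⟩
    · rw [IsScalarTower.algebraMap_apply ℚ R Ω]
      exact L.algebraMap_mem _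
    · have e1 : ((algebraMap ℚ (algebraicClosure ℚ Ω) q : algebraicClosure ℚ Ω) : Ω) =
          algebraMap ℚ Ω q := by
        rw [eq_ratCast, eq_ratCast]
        norm_cast
      rw [e1, sub_self, map_zero]
      exact zero_lt_one
  inv_mem' := by
    rintro c ⟨z, hz, h⟩
    by_cases hc : c = 0
    · refine ⟨0, zero_mem _, ?_⟩
      rw [hc, inv_zero]
      show W.valuation (0 - ((0 : algebraicClosure ℚ Ω) : Ω)) < 1
      rw [ZeroMemClass.coe_zero, sub_zero, map_zero]
      exact zero_lt_one
    · refine ⟨z⁻¹, inv_mem hz, ?_⟩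
      have hc' : (c : Ω) ≠ 0 := by
        intro h0
        exact hc (Subtype.ext h0)
      have hvc := v_alg_one hW c hc
      have hvz : W.valuation z = 1 := by
        have e1 : z = (c : Ω) + (z - c) := by ring
        rw [e1, W.valuation.map_add_eq_of_lt_left (by rw [hvc]; exact h), hvc]
      have hz0 : z ≠ 0 := by
        intro h0
        rw [h0, map_zero] at hvz
        exact zero_ne_one hvz
      have e2 : z⁻¹ - ((c⁻¹ : algebraicClosure ℚ Ω) : Ω) = -(z - c) / (z * c) := by
        rw [IntermediateField.coe_inv]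
        field_simp
        ring
      rw [e2, map_div₀, map_mul, hvz, hvc, mul_one, div_one, Valuation.map_neg]
      exact h

theorem EW_finite {x : R} (hx : Transcendental ℚ x)
    (hgen : IntermediateField.adjoin ℚ {x} = ⊤) {e : ℚ} {W : ValuationSubring Ω} (hW : At x e W)
    (L : IntermediateField R Ω) [FiniteDimensional R L] :
    FiniteDimensional ℚ (EW x e W hW L) := by
  have hrk : Module.rank ℚ (EW x e W hW L) ≤ (Module.finrank R L : ℕ) := by
    refine rank_le fun s hs => ?_
    choose z hz hzv using fun c : EW x e W hW L => c.2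
    have hli : LinearIndependent R (fun i : s => (⟨z i, hz i⟩ : L)) := by
      rw [Fintype.linearIndependent_iff]
      intro g hg
      by_contra hcon
      push Not at hcon
      obtain ⟨i0, hi0⟩ := hcon
      obtain ⟨j, -, hmax⟩ := Finset.univ.exists_max_image
        (fun i : s => W.valuation (algebraMap R Ω (g i))) ⟨i0, Finset.mem_univ _⟩
      have hvj : 0 < W.valuation (algebraMap R Ω (g j)) := by
        refine lt_of_lt_of_le ?_ (hmax i0 (Finset.mem_univ _))
        rw [zero_lt_iff, Valuation.ne_zero_iff, _root_.map_ne_zero]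
        exact hi0
      have hj0 : g j ≠ 0 := by
        intro h0
        rw [h0, map_zero, map_zero] at hvj
        exact lt_irrefl _ hvj
      have hle : ∀ i : s, W.valuation (algebraMap R Ω (g i / g j)) ≤ 1 := by
        intro i
        rw [map_div₀, map_div₀]
        exact div_le_one_of_le₀ (hmax i (Finset.mem_univ _)) zero_le
      choose q hq using fun i : s => exists_rat hx hgen hW (g i / g j) (hle i)
      have hsum : ∑ i : s, algebraMap R Ω (g i) * z i = 0 := by
        have h1 := congrArg (fun w : L => (w : Ω)) hg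
        simp only [ZeroMemClass.coe_zero] at h1
        rw [← h1, IntermediateField.coe_sum]
        refine Finset.sum_congr rfl fun i _ => ?_
        rw [IntermediateField.coe_smul, Algebra.smul_def]
      have hsum' : ∑ i : s, algebraMap R Ω (g i / g j) * z i = 0 := by
        have h2 : ∑ i : s, algebraMap R Ω (g i / g j) * z i =
            (∑ i : s, algebraMap R Ω (g i) * z i) / algebraMap R Ω (g j) := by
          rw [Finset.sum_div]
          refine Finset.sum_congr rfl fun i _ => ?_
          rw [map_div₀]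
          ring
        rw [h2, hsum, zero_div]
      have hv : W.valuation (∑ i : s, algebraMap ℚ Ω (q i) *
          (((i : EW x e W hW L) : algebraicClosure ℚ Ω) : Ω)) < 1 := by
        have h3 : ∑ i : s, algebraMap ℚ Ω (q i) *
            (((i : EW x e W hW L) : algebraicClosure ℚ Ω) : Ω) =
            ∑ i : s, -((algebraMap R Ω (g i / g j) * z i) - (algebraMap ℚ Ω (q i) *
            (((i : EW x e W hW L) : algebraicClosure ℚ Ω) : Ω))) := by
          rw [Finset.sum_neg_distrib, Finset.sum_sub_distrib, hsum']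
          ring
        rw [h3]
        refine W.valuation.map_sum_lt one_ne_zero fun i _ => ?_
        rw [Valuation.map_neg]
        exact v_lt_mul (hq i) (hzv i) (v_rat_le hW _) (v_alg hW _)
      have h0 : ∑ i : s, q i • (i : EW x e W hW L) = 0 := by
        by_contra hne
        have hne' : ((∑ i : s, q i • (i : EW x e W hW L) : EW x e W hW L) :
            algebraicClosure ℚ Ω) ≠ 0 := by
          intro h4
          exact hne (Subtype.ext h4)
        have h5 := v_alg_one hW _ hne'
        have h6 : (((∑ i : s, q i • (i : EW x e W hW L) : EW x e W hW L) :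
            algebraicClosure ℚ Ω) : Ω) = ∑ i : s, algebraMap ℚ Ω (q i) *
            (((i : EW x e W hW L) : algebraicClosure ℚ Ω) : Ω) := by
          let φ : EW x e W hW L →+* Ω := (algebraMap (algebraicClosure ℚ Ω) Ω).comp
            (algebraMap (EW x e W hW L) (algebraicClosure ℚ Ω))
          have hφ : φ.comp (algebraMap ℚ (EW x e W hW L)) = algebraMap ℚ Ω :=
            Subsingleton.elim _ _
          show φ (∑ i : s, q i • (i : EW x e W hW L)) = ∑ i : s, algebraMap ℚ Ω (q i) *
            φ (i : EW x e W hW L)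
          rw [map_sum]
          refine Finset.sum_congr rfl fun i _ => ?_
          rw [Algebra.smul_def, map_mul, ← hφ]
          rfl
        rw [h6] at h5
        rw [h5] at hv
        exact lt_irrefl _ hv
      have h7 := Fintype.linearIndependent_iff.1 hs q h0 j
      have h8 := hq j
      rw [h7, map_zero, sub_zero, div_self hj0, map_one, map_one] at h8
      exact lt_irrefl _ h8
    have := hli.fintype_card_le_finrank
    rwa [Fintype.card_coe] at this
  have hlt : Module.rank ℚ (EW x e W hW L) < Cardinal.aleph0 :=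
    lt_of_le_of_lt hrk (Cardinal.natCast_lt_aleph0)
  exact Module.rank_lt_aleph0_iff.1 hlt

end

theorem vals : S_VALS := by
  intro R Ω _ _ _ _ _ _ _ x hx hgen e L hfin hgal
  by_cases hex : ∃ W : ValuationSubring Ω, At x e W
  · obtain ⟨W, hW⟩ := hex
    have := EW_finite hx hgen hW L
    have hac : IsAlgClosed Ω := IsAlgClosure.isAlgClosed R
    have hcl : IsAlgClosure ℚ (algebraicClosure ℚ Ω) := by
      have h1 := algebraicClosure.isAlgClosure ℚ Ω
      have h2 : (DivisionRing.toRatAlgebra : Algebra ℚ (algebraicClosure ℚ Ω)) =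
          (algebraicClosure ℚ Ω).algebra' := Subsingleton.elim _ _
      rw [h2]
      exact h1
    have hnk : Normal ℚ (algebraicClosure ℚ Ω) := inferInstance
    set E := IntermediateField.normalClosure ℚ (EW x e W hW L) (algebraicClosure ℚ Ω) with hE
    have hle : EW x e W hW L ≤ E := IntermediateField.le_normalClosure _
    have hnE : Normal ℚ E := normalClosure.normal ℚ _ _
    refine ⟨E, normalClosure.is_finiteDimensional ℚ _ _, ?_⟩
    intro W' hW' z hzL hzW
    have hnR : Normal R Ω := inferInstance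
    obtain ⟨γ, hγ⟩ := Pool.Agent.Y536.PS.conj R Ω W W' (comap_eq hx hgen hW hW')
    have hγL : γ z ∈ L := by
      have h1 := AlgEquiv.restrictNormal_commutes γ L ⟨z, hzL⟩
      have h2 : (algebraMap L Ω) ⟨z, hzL⟩ = z := rfl
      rw [h2] at h1
      rw [← h1]
      exact (γ.restrictNormal L ⟨z, hzL⟩).2
    obtain ⟨c, hc⟩ := exists_alg hx hgen hW (γ z) ((W.valuation_le_one_iff _).2 ((hγ z).1 hzW))
    have hcE : c ∈ E := hle ⟨γ z, hγL, hc⟩
    have hmem : ∀ c : algebraicClosure ℚ Ω, ((γ.symm : Ω ≃ₐ[R] Ω).toRingEquiv.toRingHom.comp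
        (algebraMap (algebraicClosure ℚ Ω) Ω)) c ∈ algebraicClosure ℚ Ω := by
      intro c
      rw [mem_algebraicClosure_iff]
      obtain ⟨P, hP, hPc⟩ := mem_algebraicClosure_iff.1 c.2
      refine ⟨P, hP, ?_⟩
      have h3 : ((γ.symm.restrictScalars ℚ : Ω ≃ₐ[ℚ] Ω) : Ω →ₐ[ℚ] Ω) (c : Ω) =
          ((γ.symm : Ω ≃ₐ[R] Ω).toRingEquiv.toRingHom.comp
            (algebraMap (algebraicClosure ℚ Ω) Ω)) c := rfl
      rw [← h3, aeval_algHom_apply, hPc, map_zero]
    let f : algebraicClosure ℚ Ω →+* algebraicClosure ℚ Ω :=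
      ((γ.symm : Ω ≃ₐ[R] Ω).toRingEquiv.toRingHom.comp
        (algebraMap (algebraicClosure ℚ Ω) Ω)).codRestrict (algebraicClosure ℚ Ω) hmem
    have hmap := IntermediateField.normal_iff_forall_map_le.1 hnE (f.toRatAlgHom)
    have hfc : f c ∈ E := hmap ⟨c, hcE, rfl⟩
    refine ⟨f c, hfc, ?_⟩
    rw [ValuationSubring.mem_nonunits_iff, Pool.Agent.Y536.PS.val_lt_one_iff]
    rw [Pool.Agent.Y536.PS.val_lt_one_iff] at hc
    have h4 : γ (z - (f c : Ω)) = γ z - (c : Ω) := by
      rw [map_sub]
      congr 1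
      exact γ.apply_symm_apply (c : Ω)
    rw [← h4] at hc
    rcases hc with h5 | h5
    · left
      exact (map_eq_zero γ).1 h5
    · right
      rw [← map_inv₀, ← hγ] at h5
      exact h5
  · refine ⟨⊥, inferInstance, ?_⟩
    intro W hW
    exact absurd ⟨W, hW⟩ hex

end Pool.Agent.Y115.PC
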